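import Mathlib
import Pool.Agent.W993.SD.Defs

set_option autoImplicit false
open MeasureTheory ProbabilityTheory

namespace W977.SD
open W993.SD

/-- relabelling of the coordinates -/
def sw (m n : ℕ) : Idx m n ≃ Idx n m where
  toFun i := match i with
    | Sum.inl (a, b) => Sum.inl (b, a)
    | Sum.inr (Sum.inl a) => Sum.inr (Sum.inr a)
    | Sum.inr (Sum.inr a) => Sum.inr (Sum.inl a)
  invFun i := match i with
    | Sum.inl (a, b) => Sum.inl (b, a)
    | Sum.inr (Sum.inl a) => Sum.inr (Sum.inr a)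
    | Sum.inr (Sum.inr a) => Sum.inr (Sum.inl a)
  left_inv i := by
    rcases i with ⟨a, b⟩ | a | a <;> rfl
  right_inv i := by
    rcases i with ⟨a, b⟩ | a | a <;> rfl

variable {m n k : ℕ}

theorem sub_dual (A : Fin m → Fin n → ℝ) (f : Fin k → Fin m) (h : Fin k → Fin n) :
    sub (fun j i => - A i j) h f = -(sub A f h).transpose := by
  ext a a'
  simp [sub, Matrix.transpose_apply]

theorem inv_dual (M : Matrix (Fin k) (Fin k) ℝ) (hM : M.det ≠ 0) :
    (-(M.transpose))⁻¹ = -(M⁻¹).transpose := by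
  apply Matrix.inv_eq_right_inv
  rw [neg_mul_neg, ← Matrix.transpose_mul, Matrix.nonsing_inv_mul _ (isUnit_iff_ne_zero.mpr hM),
    Matrix.transpose_one]

theorem xk_dual (A : Fin m → Fin n → ℝ) (c : Fin n → ℝ) (f : Fin k → Fin m) (h : Fin k → Fin n)
    (hM : (sub A f h).det ≠ 0) (a : Fin k) :
    xk (fun j i => - A i j) (fun j => - c j) h f a = yk A c f h a := by
  unfold xk yk
  rw [sub_dual, inv_dual _ hM]
  apply Finset.sum_congr rfl
  intro a' _
  simp [Matrix.transpose_apply]

theorem yk_dual (A : Fin m → Fin n → ℝ) (b : Fin m → ℝ) (f : Fin k → Fin m) (h : Fin k → Fin n)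
    (hM : (sub A f h).det ≠ 0) (a : Fin k) :
    yk (fun j i => - A i j) (fun i => - b i) h f a = xk A b f h a := by
  unfold xk yk
  rw [sub_dual, inv_dual _ hM]
  apply Finset.sum_congr rfl
  intro a' _
  simp [Matrix.transpose_apply]

theorem SO_dual (A : Fin m → Fin n → ℝ) (b : Fin m → ℝ) (c : Fin n → ℝ)
    (f : Fin k → Fin m) (h : Fin k → Fin n) (hs : SO A b c f h) :
    SO (fun j i => - A i j) (fun j => - c j) (fun i => - b i) h f := by
  obtain ⟨hM, hx, hy, hr, hc⟩ := hs
  refine ⟨?_, ?_, ?_, ?_, ?_⟩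
  · rw [sub_dual, Matrix.det_neg, Matrix.det_transpose]
    exact mul_ne_zero (by positivity) hM
  · intro a
    rw [xk_dual A c f h hM]
    exact hy a
  · intro a
    rw [yk_dual A b f h hM]
    exact hx a
  · intro j hj
    have h1 := hc j hj
    have h2 : ∑ a', (fun j i => - A i j) j (f a') *
        xk (fun j i => - A i j) (fun j => - c j) h f a' = - ∑ a, A (f a) j * yk A c f h a := by
      rw [← Finset.sum_neg_distrib]
      apply Finset.sum_congr rfl
      intro a' _
      rw [xk_dual A c f h hM]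
      ring
    rw [h2]
    linarith
  · intro i hi
    have h1 := hr i hi
    have h2 : ∑ a, (fun j i => - A i j) (h a) i *
        yk (fun j i => - A i j) (fun i => - b i) h f a = - ∑ a', A i (h a') * xk A b f h a' := by
      rw [← Finset.sum_neg_distrib]
      apply Finset.sum_congr rfl
      intro a' _
      rw [yk_dual A b f h hM]
      ring
    rw [h2]
    linarith

theorem Q_comm (m n : ℕ) (H L s : ℝ) : Q n m H L (-s) = Q m n H L s := by
  unfold Q
  rw [abs_neg]
  congr 2
  ring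

/-- SD-9 from SD-8 -/
theorem tailX (HY : S_TailY) : S_TailX := by
  obtain ⟨C, hC, hY⟩ := HY
  refine ⟨C, hC, ?_⟩
  intro m n A₀ b₀ c₀ s H L R hs hs1 hH hL hR hBD
  have key := hY n m (fun j i => - A₀ i j) (fun j => - c₀ j) (fun i => - b₀ i) (-s) H L R
    (neg_ne_zero.mpr hs) (by rwa [abs_neg]) hH hL hR
    ⟨fun i j => by rw [abs_neg]; exact hBD.1 j i, fun i => by rw [abs_neg]; exact hBD.2.2 i,
      fun i => by rw [abs_neg]; exact hBD.2.1 i⟩
  rw [Q_comm] at key
  refine le_trans ?_ key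
  have hmp := measurePreserving_piCongrLeft (α := fun _ : Idx n m => ℝ)
    (fun _ : Idx n m => gaussianReal 0 1) (sw m n)
  have hG : G (Idx m n) = Measure.pi (fun i' => (fun _ : Idx n m => gaussianReal 0 1) ((sw m n) i')) := rfl
  rw [hG]
  rw [show G (Idx n m) = Measure.pi (fun _ : Idx n m => gaussianReal 0 1) from rfl]
  rw [← hmp.measure_preimage_equiv]
  apply measure_mono
  rintro ω ⟨hbox, k, f, h, hf, hh, hSO, a, ha⟩
  have hval : ∀ i : Idx m n,
      (MeasurableEquiv.piCongrLeft (fun _ : Idx n m => ℝ) (sw m n)) ω ((sw m n) i) = ω i := by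
    intro i
    exact Equiv.piCongrLeft_apply_apply (fun _ : Idx n m => ℝ) (sw m n) ω i
  set ω' := (MeasurableEquiv.piCongrLeft (fun _ : Idx n m => ℝ) (sw m n)) ω with hω'
  have h1 : ∀ i j, ω' (Sum.inl (j, i)) = ω (Sum.inl (i, j)) := fun i j => hval (Sum.inl (i, j))
  have h2 : ∀ i, ω' (Sum.inr (Sum.inr i)) = ω (Sum.inr (Sum.inl i)) :=
    fun i => hval (Sum.inr (Sum.inl i))
  have h3 : ∀ j, ω' (Sum.inr (Sum.inl j)) = ω (Sum.inr (Sum.inr j)) :=
    fun j => hval (Sum.inr (Sum.inr j))
  have eA : dA (fun j i => - A₀ i j) (-s) ω' = fun j i => - dA A₀ s ω i j := by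
    funext j i
    simp only [dA, h1]
    ring
  have eB : dB (fun j => - c₀ j) (-s) ω' = fun j => - dC c₀ s ω j := by
    funext j
    simp only [dB, dC, h3]
    ring
  have eC : dC (fun i => - b₀ i) (-s) ω' = fun i => - dB b₀ s ω i := by
    funext j
    simp only [dB, dC, h2]
    ring
  refine ⟨?_, k, h, f, hh, hf, ?_, a, ?_⟩
  · intro i
    have := hval ((sw m n).symm i)
    rw [Equiv.apply_symm_apply] at this
    change |ω' i| ≤ L
    rw [this]
    exact hbox _
  · change SO (dA (fun j i => - A₀ i j) (-s) ω') (dB (fun j => - c₀ j) (-s) ω')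
      (dC (fun i => - b₀ i) (-s) ω') h f
    rw [eA, eB, eC]
    exact SO_dual _ _ _ f h hSO
  · change R < yk (dA (fun j i => - A₀ i j) (-s) ω') (dC (fun i => - b₀ i) (-s) ω') h f a
    rw [eA, eC, yk_dual _ _ f h hSO.1]
    exact ha

end W977.SD
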